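import Pool.Agent.E8helper63.KC.Tree

/-!
# Explicit small families
-/

set_option autoImplicit false

namespace Pool.Agent.E8helper63.KCT

open Finset Function

/-- All lists of length `k` with entries below `m`. -/
def allx (m : ℕ) : ℕ → List (List ℕ)
  | 0 => [[]]
  | k + 1 => (List.range m).flatMap fun a => (allx m k).map fun l => a :: l

theorem mem_allx {m : ℕ} : ∀ (k : ℕ) (l : List ℕ), l.length = k → (∀ a ∈ l, a < m) →
    l ∈ allx m k
  | 0, l, hl, _ => by
    rw [List.length_eq_zero_iff] at hl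
    rw [hl]
    simp [allx]
  | k + 1, [], hl, _ => by simp at hl
  | k + 1, a :: l, hl, h => by
    rw [allx, List.mem_flatMap]
    refine ⟨a, List.mem_range.2 (h a (List.mem_cons_self)), List.mem_map.2 ⟨l, ?_, rfl⟩⟩
    refine mem_allx k l (by simpa using hl) fun b hb => h b (List.mem_cons_of_mem _ hb)

/-- The words. -/
def okW (m p : ℕ) (W : List (List ℕ)) : Bool :=
  W.all fun w => (List.range m).all (fun i => (List.range m).any fun k => (w.getD k m).beq i) &&
    (List.range m).all fun k => (w.getD k m).blt m && (!(w.getD k m).beq 0 || k.blt p)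

/-- Any two words are different somewhere. -/
def okD (m : ℕ) : List (List ℕ) → Bool
  | [] => true
  | w :: W => (W.all fun w' => (List.range m).any fun k => !(w.getD k m).beq (w'.getD k m)) &&
      okD m W

/-- The partial words. -/
def okP (m : ℕ) (W Ps : List (List ℕ)) : Bool :=
  Ps.all fun P => (W.filter fun w => (List.range m).all fun k =>
    !(P.getD k m).beq (w.getD k m)).length.ble 1

/-- All the choices of forbidden coordinates are avoided. -/
def okX (m : ℕ) (Ps : List (List ℕ)) : Bool :=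
  (allx m m).all fun x => Ps.any fun P => (List.range m).all fun k =>
    !(P.getD k m).blt m || !(x.getD (P.getD k m) m).beq k

/-- Enumeration of a set with a given subset at the beginning. -/
theorem exists_enum {J A : Finset ℕ} {m p : ℕ} (hJ : J.card = m) (hA : A ⊆ J) (hAc : A.card = p) :
    ∃ f f' : ℕ → ℕ, (∀ k, k < m → f k ∈ J) ∧ (∀ j ∈ J, f' j < m ∧ f (f' j) = j) ∧
      (∀ k, k < m → f' (f k) = k) ∧ ∀ k, k < p → f k ∈ A := by
  classical
  have hB : (J \ A).card = m - p := by rw [Finset.card_sdiff_of_subset hA, hJ, hAc]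
  have hpm : p ≤ m := by rw [← hJ, ← hAc]; exact Finset.card_le_card hA
  let eA : Fin p ≃ A := (A.equivFinOfCardEq hAc).symm
  let eB : Fin (m - p) ≃ (J \ A : Finset ℕ) := ((J \ A).equivFinOfCardEq hB).symm
  let f : ℕ → ℕ := fun k => if h : k < p then (eA ⟨k, h⟩ : ℕ) else
    if h' : k - p < m - p then (eB ⟨k - p, h'⟩ : ℕ) else 0
  let f' : ℕ → ℕ := fun j => if h : j ∈ A then (eA.symm ⟨j, h⟩ : ℕ) else
    if h' : j ∈ J \ A then p + (eB.symm ⟨j, h'⟩ : ℕ) else 0
  have f1 : ∀ k (h : k < p), f k = (eA ⟨k, h⟩ : ℕ) := fun k h => dif_pos h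
  have f2 : ∀ k (_ : ¬ k < p) (h' : k - p < m - p), f k = (eB ⟨k - p, h'⟩ : ℕ) := by
    intro k h h'
    change (if h : k < p then (eA ⟨k, h⟩ : ℕ) else
      if h' : k - p < m - p then (eB ⟨k - p, h'⟩ : ℕ) else 0) = _
    rw [dif_neg h, dif_pos h']
  have g1 : ∀ j (h : j ∈ A), f' j = (eA.symm ⟨j, h⟩ : ℕ) := fun j h => dif_pos h
  have g2 : ∀ j (_ : j ∉ A) (h' : j ∈ J \ A), f' j = p + (eB.symm ⟨j, h'⟩ : ℕ) := by
    intro j h h'
    change (if h : j ∈ A then (eA.symm ⟨j, h⟩ : ℕ) else
      if h' : j ∈ J \ A then p + (eB.symm ⟨j, h'⟩ : ℕ) else 0) = _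
    rw [dif_neg h, dif_pos h']
  refine ⟨f, f', ?_, ?_, ?_, ?_⟩
  · intro k hk
    by_cases h : k < p
    · rw [f1 k h]
      exact hA (eA ⟨k, h⟩).2
    · rw [f2 k h (by omega)]
      exact (Finset.mem_sdiff.1 (eB ⟨k - p, by omega⟩).2).1
  · intro j hj
    by_cases h : j ∈ A
    · have h1 := (eA.symm ⟨j, h⟩).2
      rw [g1 j h, f1 _ h1]
      refine ⟨by omega, ?_⟩
      simp
    · have h' : j ∈ J \ A := Finset.mem_sdiff.2 ⟨hj, h⟩
      have h1 := (eB.symm ⟨j, h'⟩).2
      have h2 : p + (eB.symm ⟨j, h'⟩ : ℕ) - p = (eB.symm ⟨j, h'⟩ : ℕ) := by omega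
      rw [g2 j h h', f2 _ (by omega) (by omega)]
      refine ⟨by omega, ?_⟩
      simp
  · intro k hk
    by_cases h : k < p
    · rw [f1 k h, g1 _ (eA ⟨k, h⟩).2]
      simp
    · have h' : k - p < m - p := by omega
      have h1 := Finset.mem_sdiff.1 (eB ⟨k - p, h'⟩).2
      rw [f2 k h h', g2 _ h1.2 (eB ⟨k - p, h'⟩).2]
      simp only [Subtype.coe_eta, Equiv.symm_apply_apply]
      omega
  · intro k hk
    rw [f1 k hk]
    exact (eA ⟨k, hk⟩).2

theorem okD_spec {m : ℕ} : ∀ {W : List (List ℕ)}, okD m W = true →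
    W.Pairwise fun w w' => ∃ k, k < m ∧ w.getD k m ≠ w'.getD k m
  | [], _ => List.Pairwise.nil
  | w :: W, h => by
    rw [okD, Bool.and_eq_true] at h
    refine List.Pairwise.cons (fun w' hw' => ?_) (okD_spec h.2)
    have h1 := List.all_eq_true.1 h.1 w' hw'
    obtain ⟨k, hk, h2⟩ := List.any_eq_true.1 h1
    refine ⟨k, List.mem_range.1 hk, fun h3 => ?_⟩
    rw [h3] at h2
    simp at h2

theorem Ex.explicit {m p : ℕ} {W Ps : List (List ℕ)} (hW : okW m p W = true)
    (hD : okD m W = true) (hP : okP m W Ps = true) (hX : okX m Ps = true) :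
    Ex m p W.length := by
  classical
  intro J I A hJ hI hA hAc c hc
  obtain ⟨f, f', a1, a2, a3, a4⟩ := exists_enum hJ hA hAc
  obtain ⟨g, g', b1, b2, b3, b4⟩ := exists_enum hI (A := {c}) (p := 1)
    (Finset.singleton_subset_iff.2 hc) (Finset.card_singleton c)
  have hg0 : g 0 = c := Finset.mem_singleton.1 (b4 0 zero_lt_one)
  have hinj : ∀ i i', i < m → i' < m → g i = g i' → i = i' := by
    intro i i' hi hi' h
    rw [← b3 i hi, ← b3 i' hi', h]
  -- facts on the words
  have w3 : ∀ w ∈ W, ∀ i, i < m → ∃ k, k < m ∧ w.getD k m = i := by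
    intro w hw i hi
    have h1 := List.all_eq_true.1 hW w hw
    rw [Bool.and_eq_true] at h1
    have h2 := List.all_eq_true.1 h1.1 i (List.mem_range.2 hi)
    obtain ⟨k, hk, h3⟩ := List.any_eq_true.1 h2
    exact ⟨k, List.mem_range.1 hk, by simpa using h3⟩
  have w2 : ∀ w ∈ W, ∀ k, k < m → w.getD k m < m ∧ (w.getD k m = 0 → k < p) := by
    intro w hw k hk
    have h1 := List.all_eq_true.1 hW w hw
    rw [Bool.and_eq_true] at h1
    have h2 := List.all_eq_true.1 h1.2 k (List.mem_range.2 hk)
    rw [Bool.and_eq_true, Bool.or_eq_true] at h2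
    refine ⟨by simpa using h2.1, fun h0 => ?_⟩
    rcases h2.2 with h3 | h3
    · rw [h0] at h3
      simp at h3
    · simpa using h3
  let E : List ℕ → ℕ → ℕ := fun w j => if j ∈ J then g (w.getD (f' j) m) else 0
  have hE : ∀ w j, j ∈ J → E w j = g (w.getD (f' j) m) := fun w j h => if_pos h
  have hE' : ∀ w j, j ∉ J → E w j = 0 := fun w j h => if_neg h
  have hEf : ∀ w k, k < m → E w (f k) = g (w.getD k m) := by
    intro w k hk
    rw [hE w _ (a1 k hk), a3 k hk]
  have hne : W.Pairwise fun w w' => E w ≠ E w' := by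
    refine (List.Pairwise.and_mem.1 (okD_spec hD)).imp ?_
    rintro w w' ⟨hw, hw', k, hk, h1⟩ h2
    have h3 := congrFun h2 (f k)
    rw [hEf w k hk, hEf w' k hk] at h3
    exact h1 (hinj _ _ (w2 w hw k hk).1 (w2 w' hw' k hk).1 h3)
  have hnd : (W.map E).Nodup := List.pairwise_map.2 hne
  refine ⟨(W.map E).toFinset, ⟨?_, ?_, ?_, ?_⟩, ?_, ?_⟩
  · intro e he j hj
    rw [List.mem_toFinset, List.mem_map] at he
    obtain ⟨w, hw, rfl⟩ := he
    rw [hE w j hj]
    exact b1 _ (w2 w hw _ (a2 j hj).1).1
  · intro e he i hi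
    rw [List.mem_toFinset, List.mem_map] at he
    obtain ⟨w, hw, rfl⟩ := he
    obtain ⟨k, hk, h1⟩ := w3 w hw (g' i) (b2 i hi).1
    exact ⟨f k, a1 k hk, by rw [hEf w k hk, h1, (b2 i hi).2]⟩
  · intro e he j hj
    rw [List.mem_toFinset, List.mem_map] at he
    obtain ⟨w, _, rfl⟩ := he
    exact hE' w j hj
  · intro x
    -- the list of the forbidden coordinates
    let x' : ℕ → ℕ := fun i => if x (g i) ∈ J then f' (x (g i)) else 0
    have hx' : ∀ i, i < m → x' i < m := by
      intro i hi
      by_cases h : x (g i) ∈ J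
      · change (if x (g i) ∈ J then f' (x (g i)) else 0) < m
        rw [if_pos h]
        exact (a2 _ h).1
      · change (if x (g i) ∈ J then f' (x (g i)) else 0) < m
        rw [if_neg h]
        omega
    have h1 : (List.range m).map x' ∈ allx m m := by
      refine mem_allx m _ (by simp) fun a ha => ?_
      obtain ⟨i, hi, rfl⟩ := List.mem_map.1 ha
      exact hx' i (List.mem_range.1 hi)
    obtain ⟨P, hPm, h2⟩ := List.any_eq_true.1 (List.all_eq_true.1 hX _ h1)
    have h3 : ∀ k, k < m → P.getD k m < m → x' (P.getD k m) ≠ k := by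
      intro k hk h4 h5
      have h6 := List.all_eq_true.1 h2 k (List.mem_range.2 hk)
      rw [Bool.or_eq_true] at h6
      rcases h6 with h6 | h6
      · have : (P.getD k m).blt m = true := by simpa using h4
        rw [this] at h6
        simp at h6
      · have h7 : ((List.range m).map x').getD (P.getD k m) m = x' (P.getD k m) := by
          rw [List.getD_eq_getElem _ _ (by simpa using h4)]
          simp
        rw [h7, h5] at h6
        simp at h6
    refine ⟨fun j => if P.getD (f' j) m < m then some (g (P.getD (f' j) m)) else none, ?_, ?_⟩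
    · intro j hj s hs
      beta_reduce at hs
      split_ifs at hs with h4
      · rw [Option.some.injEq] at hs
        rw [← hs]
        refine ⟨b1 _ h4, fun h5 => h3 (f' j) (a2 j hj).1 h4 ?_⟩
        change (if x (g (P.getD (f' j) m)) ∈ J then f' (x (g (P.getD (f' j) m))) else 0) = f' j
        rw [h5, if_pos hj]
    · have h4 := List.all_eq_true.1 hP P hPm
      have h5 : (W.filter fun w => (List.range m).all fun k =>
          !(P.getD k m).beq (w.getD k m)).length ≤ 1 := by
        simpa using h4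
      refine le_trans ?_ h5
      refine le_trans (Finset.card_le_card (t := ((W.filter fun w => (List.range m).all fun k =>
          !(P.getD k m).beq (w.getD k m)).map E).toFinset) ?_) ?_
      · intro e he
        obtain ⟨h6, h7⟩ := mem_Miss.1 he
        rw [List.mem_toFinset, List.mem_map] at h6 ⊢
        obtain ⟨w, hw, rfl⟩ := h6
        refine ⟨w, List.mem_filter.2 ⟨hw, List.all_eq_true.2 fun k hk => ?_⟩, rfl⟩
        have hk' := List.mem_range.1 hk
        have h8 := h7 (f k) (a1 k hk')
        rw [a3 k hk', hEf w k hk'] at h8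
        have h9 : P.getD k m ≠ w.getD k m := by
          intro h10
          apply h8
          rw [h10, if_pos (w2 w hw k hk').1]
        have h11 : (P.getD k m).beq (w.getD k m) = false := by
          cases h : (P.getD k m).beq (w.getD k m)
          · rfl
          · exact absurd (Nat.eq_of_beq_eq_true h) h9
        rw [h11]
        rfl
      · refine (List.toFinset_card_le _).trans ?_
        rw [List.length_map]
  · intro e he j hj hjc
    rw [List.mem_toFinset, List.mem_map] at he
    obtain ⟨w, hw, rfl⟩ := he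
    rw [hE w j hj, ← hg0] at hjc
    have hfj := a2 j hj
    have h1 := w2 w hw (f' j) hfj.1
    have h2 := hinj _ _ h1.1 (by omega) hjc
    rw [← hfj.2]
    exact a4 _ (h1.2 h2)
  · rw [List.toFinset_card_of_nodup hnd, List.length_map]

end Pool.Agent.E8helper63.KCT
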