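import Pool.Agent.E8helper63.KC.Tree
import Pool.Agent.H515R3.KC

/-!
# Lower bounds for `kc_r(r)` from families of bijective words
-/

set_option autoImplicit false

namespace Pool.Agent.E8helper63.KCT

open Finset Function Pool.Agent.H515R3.KC

/-- The edge of a word: `0` in the first part. -/
def edge {n : ℕ} (e : ℕ → ℕ) : Edge (n + 1) := Fin.cases 0 fun k => e k

theorem edge_zero {n : ℕ} (e : ℕ → ℕ) : (edge e : Edge (n + 1)) 0 = 0 := rfl

theorem edge_succ {n : ℕ} (e : ℕ → ℕ) (k : Fin n) : (edge e : Edge (n + 1)) k.succ = e k := rfl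

open Classical in
/-- The hypergraph of a family of words. -/
noncomputable def hyp (n : ℕ) (C : Finset (ℕ → ℕ)) : Finset (Edge (n + 1)) :=
  (Fintype.piFinset fun _ : Fin (n + 1) => range (2 * n + 2)).filter fun g =>
    g 0 = 0 ∨ (C.filter fun e => ∀ k : Fin n, g k.succ ≠ e k).card ≤ 1

theorem mem_hyp {n : ℕ} {C : Finset (ℕ → ℕ)} {g : Edge (n + 1)} :
    g ∈ hyp n C ↔ (∀ i, g i < 2 * n + 2) ∧
      (g 0 = 0 ∨ by classical exact (C.filter fun e => ∀ k : Fin n, g k.succ ≠ e k).card ≤ 1) := by
  classical
  unfold hyp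
  rw [Finset.mem_filter, Fintype.mem_piFinset]
  simp only [Finset.mem_range]

theorem covers {n k : ℕ} {C : Finset (ℕ → ℕ)} (hC : Ok (range n) (range n) C)
    (hk : k < C.card) : HasEdgeCovers (hyp n C) k := by
  classical
  have key : ∀ S : Finset (Edge (n + 1)), S ⊆ hyp n C → S.card ≤ k →
      ∃ e ∈ C, ∀ g ∈ S, Meets (edge e) g := by
    intro S hS hSk
    have h1 : (C.filter fun e => ∃ g ∈ S, ¬ Meets (edge e : Edge (n + 1)) g).card ≤ S.card := by
      have h2 : (C.filter fun e => ∃ g ∈ S, ¬ Meets (edge e : Edge (n + 1)) g) ⊆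
          S.biUnion fun g => C.filter fun e => ¬ Meets (edge e) g := by
        intro e he
        rw [Finset.mem_filter] at he
        obtain ⟨h3, g, hg, h4⟩ := he
        exact Finset.mem_biUnion.2 ⟨g, hg, Finset.mem_filter.2 ⟨h3, h4⟩⟩
      refine (Finset.card_le_card h2).trans ?_
      refine Finset.card_biUnion_le.trans ?_
      calc ∑ g ∈ S, (C.filter fun e => ¬ Meets (edge e : Edge (n + 1)) g).card
          ≤ ∑ _g ∈ S, 1 := by
            refine Finset.sum_le_sum fun g hg => ?_
            obtain ⟨_, h5⟩ := mem_hyp.1 (hS hg)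
            rcases h5 with h5 | h5
            · rw [Finset.filter_false_of_mem]
              · simp
              · intro e _ h6
                exact h6 ⟨0, by rw [edge_zero, h5]⟩
            · refine (Finset.card_le_card ?_).trans h5
              intro e he
              rw [Finset.mem_filter] at he ⊢
              refine ⟨he.1, fun k hk => he.2 ⟨k.succ, ?_⟩⟩
              rw [edge_succ, hk]
        _ = S.card := by rw [Finset.sum_const, smul_eq_mul, mul_one]
    have h2 : ∃ e ∈ C, e ∉ C.filter fun e => ∃ g ∈ S, ¬ Meets (edge e : Edge (n + 1)) g := by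
      by_contra hcon
      push Not at hcon
      have := Finset.card_le_card (show C ⊆ _ from hcon)
      omega
    obtain ⟨e, he, h3⟩ := h2
    refine ⟨e, he, fun g hg => ?_⟩
    by_contra h4
    exact h3 (Finset.mem_filter.2 ⟨he, g, hg, h4⟩)
  choose f hf using key
  have hmem : ∀ e ∈ C, (edge e : Edge (n + 1)) ∈ hyp n C := by
    intro e he
    refine mem_hyp.2 ⟨fun i => ?_, Or.inl (edge_zero e)⟩
    refine Fin.cases ?_ (fun j => ?_) i
    · rw [edge_zero]
      omega
    · rw [edge_succ]
      have := hC.mem e he j (Finset.mem_range.2 j.2)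
      rw [Finset.mem_range] at this
      omega
  refine ⟨fun S => if h : S ⊆ hyp n C ∧ S.card ≤ k then edge (f S h.1 h.2) else fun _ => 0,
    ?_, ?_⟩
  · intro S hS hSk
    have h : S ⊆ hyp n C ∧ S.card ≤ k := ⟨hS, hSk⟩
    beta_reduce
    rw [dif_pos h]
    exact ⟨hmem _ (hf S hS hSk).1, (hf S hS hSk).2⟩
  · intro S S' hS hSk hS' hSk'
    have h : S ⊆ hyp n C ∧ S.card ≤ k := ⟨hS, hSk⟩
    have h' : S' ⊆ hyp n C ∧ S'.card ≤ k := ⟨hS', hSk'⟩
    beta_reduce
    rw [dif_pos h, dif_pos h']
    exact ⟨0, by rw [edge_zero, edge_zero]⟩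

/-- A value below `2 n + 2` that is not forbidden. -/
theorem free {n : ℕ} (X : Finset (Fin (n + 1) × ℕ)) (hX : X.card ≤ n + 1) (i : Fin (n + 1)) :
    ∃ a, a < 2 * n + 2 ∧ (i, a) ∉ X := by
  classical
  by_contra hcon
  push Not at hcon
  have h1 : (range (2 * n + 2)).image (fun a => (i, a)) ⊆ X := by
    intro v hv
    obtain ⟨a, ha, rfl⟩ := Finset.mem_image.1 hv
    exact hcon a (Finset.mem_range.1 ha)
  have h2 := Finset.card_le_card h1
  rw [Finset.card_image_of_injective _ (fun a b h => (Prod.mk.inj h).2), Finset.card_range] at h2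
  omega

theorem not_tau {n : ℕ} (hn : 0 < n) {C : Finset (ℕ → ℕ)} (hC : Ok (range n) (range n) C) :
    ¬ TauLE (hyp n C) (n + 1) := by
  classical
  rintro ⟨X, hX, hcov⟩
  choose a ha haX using free X hX
  by_cases h0 : ((0 : Fin (n + 1)), 0) ∈ X
  · have key : ∃ P : ℕ → Option ℕ,
        (∀ k : Fin n, ∀ s, P k = some s → s ∈ range n ∧ (k.succ, s) ∉ X) ∧
          (Miss (range n) P C).card ≤ 1 := by
      by_cases hi : ∃ i ∈ range n, ∀ k : Fin n, (k.succ, i) ∉ X
      · obtain ⟨i, hi, h1⟩ := hi
        refine ⟨fun _ => some i, ?_, ?_⟩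
        · intro k s hs
          rw [Option.some.injEq] at hs
          rw [← hs]
          exact ⟨hi, h1 k⟩
        · rw [Miss_empty]
          · exact zero_le_one
          · intro e he
            obtain ⟨j, hj, h2⟩ := hC.sur e he i hi
            exact ⟨j, hj, by rw [h2]⟩
      · push Not at hi
        have hi' : ∀ i : ℕ, ∃ k : Fin n, i ∈ range n → (k.succ, i) ∈ X := by
          intro i
          by_cases h : i ∈ range n
          · obtain ⟨k, hk⟩ := hi i h
            exact ⟨k, fun _ => hk⟩
          · exact ⟨⟨0, hn⟩, fun h' => absurd h' h⟩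
        choose x hx using hi'
        obtain ⟨P, h1, h2⟩ := hC.gd fun i => (x i : ℕ)
        refine ⟨P, fun k s hs => ?_, h2⟩
        obtain ⟨h3, h4⟩ := h1 k (Finset.mem_range.2 k.2) s hs
        refine ⟨h3, fun h5 => h4 ?_⟩
        -- the forbidden pairs are exactly the `(x i + 1, i)`
        have h6 : (range n).image (fun i => ((x i).succ, i)) ⊆ X.erase (0, 0) := by
          intro v hv
          obtain ⟨i, hi1, rfl⟩ := Finset.mem_image.1 hv
          refine Finset.mem_erase.2 ⟨fun h => ?_, hx i hi1⟩
          exact Fin.succ_ne_zero _ (Prod.mk.inj h).1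
        have h7 : ((range n).image (fun i => ((x i).succ, i))).card = n := by
          rw [Finset.card_image_of_injective _ (fun a b h => (Prod.mk.inj h).2),
            Finset.card_range]
        have h8 : (range n).image (fun i => ((x i).succ, i)) = X.erase (0, 0) := by
          refine Finset.eq_of_subset_of_card_le h6 ?_
          rw [h7, Finset.card_erase_of_mem h0]
          omega
        have h9 : (k.succ, s) ∈ X.erase (0, 0) :=
          Finset.mem_erase.2 ⟨fun h => Fin.succ_ne_zero _ (Prod.mk.inj h).1, h5⟩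
        rw [← h8] at h9
        obtain ⟨i, _, h10⟩ := Finset.mem_image.1 h9
        obtain ⟨h11, h12⟩ := Prod.mk.inj h10
        rw [← h12]
        exact congrArg Fin.val (Fin.succ_injective _ h11)
    obtain ⟨P, h1, h2⟩ := key
    let g : Edge (n + 1) := Fin.cases (a 0) fun k => (P k).getD (a k.succ)
    have hg0 : g 0 = a 0 := rfl
    have hgs : ∀ k : Fin n, g k.succ = (P k).getD (a k.succ) := fun _ => rfl
    have hgX : ∀ i, (i, g i) ∉ X := by
      intro i
      refine Fin.cases ?_ (fun k => ?_) i
      · rw [hg0]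
        exact haX 0
      · rw [hgs]
        rcases hP : P k with _ | s
        · exact haX k.succ
        · exact (h1 k s hP).2
    have hgH : g ∈ hyp n C := by
      refine mem_hyp.2 ⟨fun i => ?_, Or.inr ?_⟩
      · refine Fin.cases ?_ (fun k => ?_) i
        · rw [hg0]
          exact ha 0
        · rw [hgs]
          rcases hP : P k with _ | s
          · exact ha k.succ
          · have := (h1 k s hP).1
            rw [Finset.mem_range] at this
            change s < _
            omega
      · refine (Finset.card_le_card ?_).trans h2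
        intro e he
        rw [Finset.mem_filter] at he
        refine mem_Miss.2 ⟨he.1, fun j hj hP => ?_⟩
        refine he.2 ⟨j, Finset.mem_range.1 hj⟩ ?_
        rw [hgs]
        change (P j).getD _ = e j
        rw [hP]
        rfl
    obtain ⟨i, hi⟩ := hcov g hgH
    exact hgX i hi
  · let g : Edge (n + 1) := Fin.cases 0 fun k => a k.succ
    have hgH : g ∈ hyp n C := by
      refine mem_hyp.2 ⟨fun i => ?_, Or.inl rfl⟩
      refine Fin.cases ?_ (fun k => ?_) i
      · change 0 < 2 * n + 2
        omega
      · exact ha k.succ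
    obtain ⟨i, hi⟩ := hcov g hgH
    revert hi
    refine Fin.cases ?_ (fun k => ?_) i
    · exact h0
    · exact haX k.succ

/-- The lower bound. -/
theorem lower {n v : ℕ} (hn : 0 < n) (h : Ex n n v) : v ≤ kc (n + 1) (n + 1) := by
  obtain ⟨C, h1, _, h3⟩ := h (range n) (range n) (range n) (Finset.card_range n)
    (Finset.card_range n) (Finset.Subset.refl _) (Finset.card_range n) 0 (Finset.mem_range.2 hn)
  by_contra hcon
  push Not at hcon
  have hne : (Good (n + 1) (n + 1)).Nonempty := ⟨_, pow_mem_Good (by omega)⟩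
  have hk : kc (n + 1) (n + 1) ∈ Good (n + 1) (n + 1) := Nat.sInf_mem hne
  exact not_tau hn h1 (hk.2 _ (covers h1 (hcon.trans_le h3)))

end Pool.Agent.E8helper63.KCT
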