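import Pool.Agent.E8helper63.KC.Base

/-!
# The number of words
-/

set_option autoImplicit false

namespace Pool.Agent.E8helper63.KCT

theorem Ex.b21 : Ex 2 1 1 := Ex.forced Ex.one

theorem Ex.b22 : Ex 2 2 2 :=
  Ex.explicit (W := [[0, 1], [1, 0]]) (Ps := [[0, 2], [2, 0]])
    (by decide +kernel) (by decide +kernel) (by decide +kernel) (by decide +kernel)

theorem Ex.b31 : Ex 3 1 2 := Ex.forced Ex.b22

theorem Ex.b32 : Ex 3 2 3 :=
  Ex.explicit (W := [[0, 1, 2], [0, 2, 1], [1, 0, 2]]) (Ps := [[0, 3, 3], [3, 0, 1], [1, 1, 3]])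
    (by decide +kernel) (by decide +kernel) (by decide +kernel) (by decide +kernel)

theorem Ex.b33 : Ex 3 3 4 :=
  Ex.explicit (W := [[0, 1, 2], [0, 2, 1], [1, 0, 2], [2, 1, 0]])
    (Ps := [[0, 1, 3], [1, 2, 0], [2, 0, 1], [0, 3, 2], [3, 1, 2]])
    (by decide +kernel) (by decide +kernel) (by decide +kernel) (by decide +kernel)

theorem Ex.b41 : Ex 4 1 4 := Ex.forced Ex.b33

theorem Ex.b42 : Ex 4 2 6 :=
  Ex.explicit (W := [[0, 1, 2, 3], [0, 1, 3, 2], [0, 2, 1, 3], [0, 3, 2, 1], [1, 0, 3, 2],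
      [2, 0, 1, 3]])
    (Ps := [[0, 4, 1, 4], [1, 1, 4, 3], [4, 0, 2, 2], [2, 2, 3, 1], [4, 3, 1, 2], [0, 4, 3, 4],
      [4, 0, 2, 3], [1, 1, 1, 4]])
    (by decide +kernel) (by decide +kernel) (by decide +kernel) (by decide +kernel)

theorem Ex.b43 : Ex 4 3 7 :=
  Ex.explicit (W := [[0, 1, 2, 3], [0, 1, 3, 2], [0, 2, 1, 3], [1, 0, 2, 3], [2, 3, 0, 1],
      [3, 0, 1, 2], [3, 1, 0, 2]])
    (Ps := [[0, 3, 4, 2], [2, 1, 4, 3], [3, 2, 2, 1], [4, 0, 0, 3], [1, 1, 1, 4], [2, 0, 1, 2],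
      [0, 4, 0, 3], [1, 1, 0, 2], [0, 0, 4, 1]])
    (by decide +kernel) (by decide +kernel) (by decide +kernel) (by decide +kernel)

theorem Ex.b44 : Ex 4 4 8 :=
  Ex.explicit (W := [[0, 1, 2, 3], [0, 1, 3, 2], [0, 2, 1, 3], [1, 2, 0, 3], [1, 2, 3, 0],
      [1, 3, 2, 0], [2, 0, 3, 1], [3, 1, 0, 2]])
    (Ps := [[1, 1, 3, 4], [0, 3, 0, 1], [1, 0, 1, 2], [2, 1, 1, 0], [3, 2, 2, 1], [1, 1, 4, 3],
      [1, 4, 3, 3], [4, 1, 3, 3]])
    (by decide +kernel) (by decide +kernel) (by decide +kernel) (by decide +kernel)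

/-- The entry `p` of `L` is a number of words on `m` coordinates with `p + 1` allowed coordinates
for one symbol. -/
def ExL (m : ℕ) (L : List ℕ) : Prop := ∀ p, p < m → Ex m (p + 1) (L.getD p 0)

/-- One more coordinate. -/
def step (m : ℕ) (t : List ℕ) : List ℕ :=
  (List.range (m + 1)).map fun p => if p = 0 then t.getD (m - 1) 0 else
    t.getD (min p (m / 2) - 1) 0 + t.getD (m - 1 - min p (m / 2)) 0

theorem ExL.step {m : ℕ} {t : List ℕ} (hm : 2 ≤ m) (h : ExL m t) : ExL (m + 1) (step m t) := by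
  intro p hp
  have h1 : (KCT.step m t).getD p 0 = if p = 0 then t.getD (m - 1) 0 else
      t.getD (min p (m / 2) - 1) 0 + t.getD (m - 1 - min p (m / 2)) 0 := by
    unfold KCT.step
    rw [List.getD_eq_getElem _ _ (by simpa using hp)]
    simp
  rw [h1]
  obtain ⟨m', rfl⟩ : ∃ m', m = m' + 1 := ⟨m - 1, by omega⟩
  split_ifs with h0
  · subst h0
    have := h m' (by omega)
    exact Ex.forced this
  · have hq1 : 1 ≤ min p ((m' + 1) / 2) := by omega
    have hq2 : min p ((m' + 1) / 2) ≤ (m' + 1) / 2 := min_le_right _ _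
    have hq3 : min p ((m' + 1) / 2) ≤ p := min_le_left _ _
    generalize min p ((m' + 1) / 2) = q at hq1 hq2 hq3 ⊢
    have h2 := h (q - 1) (by omega)
    have h3 := h (m' + 1 - 1 - q) (by omega)
    have h4 : q - 1 + 1 = q := by omega
    have h5 : m' + 1 - 1 - q + 1 = m' + 1 - q := by omega
    rw [h4] at h2
    rw [h5] at h3
    exact (Ex.branch h2 h3 (by omega) (by omega)).mono_p (by omega)

theorem ExL.four : ExL 4 [4, 6, 7, 8] := by
  intro p hp
  interval_cases p
  · exact Ex.b41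
  · exact Ex.b42
  · exact Ex.b43
  · exact Ex.b44

theorem ExL.n5 : ExL 5 [8, 11, 12, 12, 12] :=
  ExL.four.step (by norm_num)

theorem ExL.n6 : ExL 6 [12, 20, 23, 23, 23, 23] :=
  ExL.n5.step (by norm_num)

theorem ExL.n7 : ExL 7 [23, 35, 43, 46, 46, 46, 46] :=
  ExL.n6.step (by norm_num)

theorem ExL.n8 : ExL 8 [46, 69, 81, 89, 89, 89, 89, 89] :=
  ExL.n7.step (by norm_num)

theorem ExL.n9 : ExL 9 [89, 135, 158, 170, 178, 178, 178, 178, 178] :=
  ExL.n8.step (by norm_num)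

theorem ExL.n10 : ExL 10 [178, 267, 313, 336, 348, 348, 348, 348, 348, 348] :=
  ExL.n9.step (by norm_num)

theorem ExL.n11 : ExL 11 [348, 526, 615, 661, 684, 696, 696, 696, 696, 696, 696] :=
  ExL.n10.step (by norm_num)

theorem ExL.n12 : ExL 12 [696, 1044, 1222, 1311, 1357, 1380, 1380, 1380, 1380, 1380, 1380, 1380]
    :=
  ExL.n11.step (by norm_num)

theorem ExL.n13 : ExL 13 [1380, 2076, 2424, 2602, 2691, 2737, 2760, 2760, 2760, 2760, 2760,
    2760, 2760] :=
  ExL.n12.step (by norm_num)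

theorem ExL.n14 : ExL 14 [2760, 4140, 4836, 5184, 5362, 5451, 5497, 5497, 5497, 5497, 5497,
    5497, 5497, 5497] :=
  ExL.n13.step (by norm_num)

theorem ExL.n15 : ExL 15 [5497, 8257, 9637, 10333, 10681, 10859, 10948, 10994, 10994, 10994,
    10994, 10994, 10994, 10994, 10994] :=
  ExL.n14.step (by norm_num)

theorem ExL.n16 : ExL 16 [10994, 16491, 19251, 20631, 21327, 21675, 21853, 21942, 21942, 21942,
    21942, 21942, 21942, 21942, 21942, 21942] :=
  ExL.n15.step (by norm_num)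

theorem ExL.n17 : ExL 17 [21942, 32936, 38433, 41193, 42573, 43269, 43617, 43795, 43884, 43884,
    43884, 43884, 43884, 43884, 43884, 43884, 43884] :=
  ExL.n16.step (by norm_num)

theorem ExL.n18 : ExL 18 [43884, 65826, 76820, 82317, 85077, 86457, 87153, 87501, 87679, 87679,
    87679, 87679, 87679, 87679, 87679, 87679, 87679, 87679] :=
  ExL.n17.step (by norm_num)

theorem ExL.n19 : ExL 19 [87679, 131563, 153505, 164499, 169996, 172756, 174136, 174832, 175180,
    175358, 175358, 175358, 175358, 175358, 175358, 175358, 175358, 175358, 175358] :=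
  ExL.n18.step (by norm_num)

theorem ExL.n20 : ExL 20 [175358, 263037, 306921, 328863, 339857, 345354, 348114, 349494,
    350190, 350538, 350538, 350538, 350538, 350538, 350538, 350538, 350538, 350538, 350538,
    350538] :=
  ExL.n19.step (by norm_num)

/-- The general lower bound. -/
def Claim (m s : ℕ) : Prop :=
  ∀ p, 1 ≤ p → p ≤ (m + 1) / 2 → ∃ v, Ex m p v ∧ 2 ^ m + s ≤ 3 * v + 2 * 2 ^ (m - p)

theorem Claim.top {m s : ℕ} (hm : 1 ≤ m) (h : Claim m s) :
    ∃ v, Ex m ((m + 1) / 2) v ∧ 2 ^ m + s ≤ 3 * v + 2 * 2 ^ (m / 2) := by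
  obtain ⟨v, h1, h2⟩ := h ((m + 1) / 2) (by omega) le_rfl
  rw [show m - (m + 1) / 2 = m / 2 by omega] at h2
  exact ⟨v, h1, h2⟩

theorem Claim.step {m s s' : ℕ} (hm : 2 ≤ m) (h : Claim m s)
    (h1 : s' + 2 * 2 ^ (m / 2) ≤ 2 * s) (h2 : s' + 2 * 2 ^ (m / 2) ≤ 2 ^ m + s) :
    Claim (m + 1) s' := by
  obtain ⟨v0, a1, a2⟩ := h.top (by omega)
  intro p hp1 hp2
  obtain ⟨m', rfl⟩ : ∃ m', m = m' + 1 := ⟨m - 1, by omega⟩
  rcases Nat.lt_or_ge p 2 with hp | hp
  · obtain rfl : p = 1 := by omega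
    refine ⟨v0, Ex.forced (a1.mono_p (by omega)), ?_⟩
    rw [Nat.add_sub_cancel, pow_succ]
    omega
  · obtain ⟨v1, b1, b2⟩ := h (p - 1) (by omega) (by omega)
    refine ⟨v1 + v0, ?_, ?_⟩
    · have := Ex.branch b1 (a1.mono_p (p' := m' + 1 - (p - 1)) (by omega)) (by omega) (by omega)
      rwa [show p - 1 + 1 = p by omega] at this
    · rw [show m' + 1 - (p - 1) = m' + 1 + 1 - p by omega] at b2
      have := pow_succ 2 (m' + 1)
      omega

theorem claim (k : ℕ) : Claim (2 * k + 20) (3 * 2 ^ (k + 10)) := by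
  induction k with
  | zero =>
    intro p hp1 hp2
    have hp3 : p - 1 < 20 := by omega
    refine ⟨_, by simpa [show p - 1 + 1 = p by omega] using ExL.n20 (p - 1) hp3, ?_⟩
    have hp4 : p ≤ 10 := by omega
    clear hp2 hp3
    interval_cases p <;> norm_num
  | succ k ih =>
    have h1 : Claim (2 * k + 20 + 1) (4 * 2 ^ (k + 10)) := by
      refine ih.step (by omega) ?_ ?_
      · rw [show (2 * k + 20) / 2 = k + 10 by omega]
        omega
      · rw [show (2 * k + 20) / 2 = k + 10 by omega]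
        have : 2 ^ (2 * k + 20) = 2 ^ (k + 10) * 2 ^ (k + 10) := by
          rw [← pow_add]
          congr 1
          omega
        have h3 : 2 ^ 2 ≤ 2 ^ (k + 10) := Nat.pow_le_pow_right (by norm_num) (by omega)
        rw [this]
        nlinarith
    have h2 : Claim (2 * k + 20 + 1 + 1) (3 * 2 ^ (k + 1 + 10)) := by
      refine h1.step (by omega) ?_ ?_
      · rw [show (2 * k + 20 + 1) / 2 = k + 10 by omega, show k + 1 + 10 = k + 10 + 1 by omega,
          pow_succ]
        omega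
      · rw [show (2 * k + 20 + 1) / 2 = k + 10 by omega, show k + 1 + 10 = k + 10 + 1 by omega,
          pow_succ 2 (k + 10)]
        have : 2 ^ (2 * k + 20 + 1) = 2 * (2 ^ (k + 10) * 2 ^ (k + 10)) := by
          rw [← pow_add, ← pow_succ']
          congr 1
          omega
        have h3 : 2 ^ 2 ≤ 2 ^ (k + 10) := Nat.pow_le_pow_right (by norm_num) (by omega)
        rw [this]
        nlinarith
    exact h2

/-- At least `2 ^ n / 3` words. -/
theorem third (n : ℕ) (hn : 0 < n) : ∃ v, Ex n n v ∧ 2 ^ n ≤ 3 * v := by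
  rcases Nat.lt_or_ge n 20 with h | h
  · interval_cases n
    · exact ⟨1, Ex.one, by norm_num⟩
    · exact ⟨2, Ex.b22, by norm_num⟩
    · exact ⟨4, Ex.b33, by norm_num⟩
    · exact ⟨8, Ex.b44, by norm_num⟩
    · exact ⟨_, ExL.n5 4 (by norm_num), by norm_num⟩
    · exact ⟨_, ExL.n6 5 (by norm_num), by norm_num⟩
    · exact ⟨_, ExL.n7 6 (by norm_num), by norm_num⟩
    · exact ⟨_, ExL.n8 7 (by norm_num), by norm_num⟩
    · exact ⟨_, ExL.n9 8 (by norm_num), by norm_num⟩
    · exact ⟨_, ExL.n10 9 (by norm_num), by norm_num⟩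
    · exact ⟨_, ExL.n11 10 (by norm_num), by norm_num⟩
    · exact ⟨_, ExL.n12 11 (by norm_num), by norm_num⟩
    · exact ⟨_, ExL.n13 12 (by norm_num), by norm_num⟩
    · exact ⟨_, ExL.n14 13 (by norm_num), by norm_num⟩
    · exact ⟨_, ExL.n15 14 (by norm_num), by norm_num⟩
    · exact ⟨_, ExL.n16 15 (by norm_num), by norm_num⟩
    · exact ⟨_, ExL.n17 16 (by norm_num), by norm_num⟩
    · exact ⟨_, ExL.n18 17 (by norm_num), by norm_num⟩
    · exact ⟨_, ExL.n19 18 (by norm_num), by norm_num⟩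
  · obtain ⟨k, hk⟩ : ∃ k, n = 2 * k + 20 ∨ n = 2 * k + 20 + 1 := ⟨(n - 20) / 2, by omega⟩
    rcases hk with rfl | rfl
    · obtain ⟨v, h1, h2⟩ := (claim k).top (by omega)
      refine ⟨v, h1.mono_p (by omega), ?_⟩
      rw [show (2 * k + 20) / 2 = k + 10 by omega] at h2
      omega
    · obtain ⟨v, h1, h2⟩ := (claim k).top (by omega)
      have h3 : Claim (2 * k + 20 + 1) (4 * 2 ^ (k + 10)) := by
        refine (claim k).step (by omega) ?_ ?_
        · rw [show (2 * k + 20) / 2 = k + 10 by omega]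
          omega
        · rw [show (2 * k + 20) / 2 = k + 10 by omega]
          have : 2 ^ (2 * k + 20) = 2 ^ (k + 10) * 2 ^ (k + 10) := by
            rw [← pow_add]
            congr 1
            omega
          have h3 : 2 ^ 2 ≤ 2 ^ (k + 10) := Nat.pow_le_pow_right (by norm_num) (by omega)
          rw [this]
          nlinarith
      obtain ⟨v', h4, h5⟩ := h3.top (by omega)
      refine ⟨v', h4.mono_p (by omega), ?_⟩
      rw [show (2 * k + 20 + 1) / 2 = k + 10 by omega] at h5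
      omega

end Pool.Agent.E8helper63.KCT
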