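import Mathlib

/-!
# Families of bijective words every coordinate system of which is nearly met

`J` is a finite set of coordinates, `I` a finite set of symbols; a word is a function `e`. A partial
word `P` meets `e` if `P j = e j` for some `j ∈ J`.
-/

set_option autoImplicit false

namespace Pool.Agent.E8helper63.KCT

open Finset Function

open Classical in
/-- The members of `C` that are not met by the partial word `P`. -/
noncomputable def Miss (J : Finset ℕ) (P : ℕ → Option ℕ) (C : Finset (ℕ → ℕ)) : Finset (ℕ → ℕ) :=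
  C.filter fun e => ∀ j ∈ J, P j ≠ some (e j)

theorem mem_Miss {J : Finset ℕ} {P : ℕ → Option ℕ} {C : Finset (ℕ → ℕ)} {e : ℕ → ℕ} :
    e ∈ Miss J P C ↔ e ∈ C ∧ ∀ j ∈ J, P j ≠ some (e j) := by
  classical
  unfold Miss
  rw [Finset.mem_filter]

/-- `C` is a family of bijections of `J` onto `I` such that for every choice of one forbidden
coordinate `x i` for every symbol `i` there is a partial word which avoids the forbidden pairs and
meets all the members of `C` but at most one. -/
structure Ok (J I : Finset ℕ) (C : Finset (ℕ → ℕ)) : Prop where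
  mem : ∀ e ∈ C, ∀ j ∈ J, e j ∈ I
  sur : ∀ e ∈ C, ∀ i ∈ I, ∃ j ∈ J, e j = i
  out : ∀ e ∈ C, ∀ j, j ∉ J → e j = 0
  gd : ∀ x : ℕ → ℕ, ∃ P : ℕ → Option ℕ, (∀ j ∈ J, ∀ s, P j = some s → s ∈ I ∧ x s ≠ j) ∧
    (Miss J P C).card ≤ 1

theorem Ok.base (j a : ℕ) : Ok {j} {a} {update (0 : ℕ → ℕ) j a} := by
  refine ⟨?_, ?_, ?_, ?_⟩
  · intro e he j' hj'
    rw [Finset.mem_singleton] at he hj' ⊢
    rw [he, hj', update_self]
  · intro e he i hi
    rw [Finset.mem_singleton] at he hi
    exact ⟨j, Finset.mem_singleton_self j, by rw [he, hi, update_self]⟩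
  · intro e he j' hj'
    rw [Finset.mem_singleton] at he hj'
    rw [he, update_of_ne hj']
    rfl
  · intro x
    refine ⟨fun _ => none, fun j _ s hs => by simp at hs, ?_⟩
    calc (Miss {j} (fun _ => none) {update (0 : ℕ → ℕ) j a}).card
        ≤ ({update (0 : ℕ → ℕ) j a} : Finset (ℕ → ℕ)).card :=
          Finset.card_le_card fun e he => (mem_Miss.1 he).1
      _ = 1 := Finset.card_singleton _

open Classical in
/-- Put the symbol `a` at the coordinate `j`. -/
noncomputable def put (j a : ℕ) (C : Finset (ℕ → ℕ)) : Finset (ℕ → ℕ) :=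
  C.image fun e => update e j a

theorem mem_put {j a : ℕ} {C : Finset (ℕ → ℕ)} {e : ℕ → ℕ} :
    e ∈ put j a C ↔ ∃ e' ∈ C, update e' j a = e := by
  classical
  unfold put
  rw [Finset.mem_image]

theorem put_inj {j a : ℕ} {C : Finset (ℕ → ℕ)} (h : ∀ e ∈ C, e j = 0) :
    Set.InjOn (fun e : ℕ → ℕ => update e j a) (C : Set (ℕ → ℕ)) := by
  intro e he e' he' hee
  funext j'
  by_cases hj : j' = j
  · rw [hj, h e he, h e' he']
  · have := congrFun hee j'
    simpa [update_of_ne hj] using this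

theorem card_put {j a : ℕ} {C : Finset (ℕ → ℕ)} (h : ∀ e ∈ C, e j = 0) :
    (put j a C).card = C.card := by
  classical
  unfold put
  exact Finset.card_image_of_injOn (put_inj h)

theorem card_Miss_put {J : Finset ℕ} {j a : ℕ} {C : Finset (ℕ → ℕ)} {P P' : ℕ → Option ℕ}
    (hj : j ∉ J) (h : ∀ j' ∈ J, P j' = P' j') :
    (Miss (insert j J) P (put j a C)).card ≤ (Miss J P' C).card := by
  classical
  have : Miss (insert j J) P (put j a C) ⊆ (Miss J P' C).image fun e => update e j a := by
    intro e he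
    obtain ⟨h1, h2⟩ := mem_Miss.1 he
    obtain ⟨e', he', rfl⟩ := mem_put.1 h1
    refine Finset.mem_image.2 ⟨e', mem_Miss.2 ⟨he', fun j' hj' => ?_⟩, rfl⟩
    have h3 := h2 j' (Finset.mem_insert_of_mem hj')
    have hne : j' ≠ j := fun h => hj (h ▸ hj')
    rw [update_of_ne hne, h j' hj'] at h3
    exact h3
  exact (Finset.card_le_card this).trans Finset.card_image_le

theorem put_mem {J I : Finset ℕ} {C : Finset (ℕ → ℕ)} {j a : ℕ} (ha : a ∈ I)
    (hC : Ok J (I.erase a) C) {e : ℕ → ℕ} (he : e ∈ put j a C) :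
    ∀ j' ∈ insert j J, e j' ∈ I := by
  obtain ⟨e', he', rfl⟩ := mem_put.1 he
  intro j' hj'
  by_cases h : j' = j
  · rw [h, update_self]
    exact ha
  · rw [update_of_ne h]
    exact Finset.mem_of_mem_erase (hC.mem e' he' j' (Finset.mem_of_mem_insert_of_ne hj' h))

theorem put_sur {J I : Finset ℕ} {C : Finset (ℕ → ℕ)} {j a : ℕ} (hj : j ∉ J)
    (hC : Ok J (I.erase a) C) {e : ℕ → ℕ} (he : e ∈ put j a C) :
    ∀ i ∈ I, ∃ j' ∈ insert j J, e j' = i := by
  obtain ⟨e', he', rfl⟩ := mem_put.1 he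
  intro i hi
  by_cases h : i = a
  · exact ⟨j, Finset.mem_insert_self _ _, by rw [h, update_self]⟩
  · obtain ⟨j', hj', h'⟩ := hC.sur e' he' i (Finset.mem_erase.2 ⟨h, hi⟩)
    have hne : j' ≠ j := fun h => hj (h ▸ hj')
    exact ⟨j', Finset.mem_insert_of_mem hj', by rw [update_of_ne hne, h']⟩

theorem put_out {J I : Finset ℕ} {C : Finset (ℕ → ℕ)} {j a : ℕ}
    (hC : Ok J (I.erase a) C) {e : ℕ → ℕ} (he : e ∈ put j a C) :
    ∀ j', j' ∉ insert j J → e j' = 0 := by
  obtain ⟨e', he', rfl⟩ := mem_put.1 he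
  intro j' hj'
  rw [Finset.mem_insert, not_or] at hj'
  rw [update_of_ne hj'.1]
  exact hC.out e' he' j' hj'.2

/-- One symbol at the coordinate `j`. -/
theorem Ok.forced {J I : Finset ℕ} {C : Finset (ℕ → ℕ)} {j a : ℕ} (hj : j ∉ J) (ha : a ∈ I)
    (hC : Ok J (I.erase a) C) : Ok (insert j J) I (put j a C) := by
  refine ⟨fun e he => put_mem ha hC he, fun e he => put_sur hj hC he, fun e he => put_out hC he,
    fun x => ?_⟩
  obtain ⟨P, h1, h2⟩ := hC.gd x
  refine ⟨update P j none, ?_, ?_⟩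
  · intro j' hj' s hs
    by_cases h : j' = j
    · rw [h, update_self] at hs
      exact absurd hs (by simp)
    · rw [update_of_ne h] at hs
      obtain ⟨h3, h4⟩ := h1 j' (Finset.mem_of_mem_insert_of_ne hj' h) s hs
      exact ⟨Finset.mem_of_mem_erase h3, h4⟩
  · refine (card_Miss_put hj fun j' hj' => ?_).trans h2
    have hne : j' ≠ j := fun h => hj (h ▸ hj')
    rw [update_of_ne hne]

theorem card_Miss_union {J : Finset ℕ} {P : ℕ → Option ℕ} {C D : Finset (ℕ → ℕ)}
    {E : Finset (ℕ → ℕ)} (h : ∀ e, e ∈ E ↔ e ∈ C ∨ e ∈ D) :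
    (Miss J P E).card ≤ (Miss J P C).card + (Miss J P D).card := by
  classical
  have : Miss J P E ⊆ Miss J P C ∪ Miss J P D := by
    intro e he
    obtain ⟨h1, h2⟩ := mem_Miss.1 he
    rw [Finset.mem_union]
    rcases (h e).1 h1 with h3 | h3
    · exact Or.inl (mem_Miss.2 ⟨h3, h2⟩)
    · exact Or.inr (mem_Miss.2 ⟨h3, h2⟩)
  exact (Finset.card_le_card this).trans (Finset.card_union_le _ _)

theorem Miss_empty {J : Finset ℕ} {P : ℕ → Option ℕ} {C : Finset (ℕ → ℕ)}
    (h : ∀ e ∈ C, ∃ j ∈ J, P j = some (e j)) : (Miss J P C).card = 0 := by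
  rw [Finset.card_eq_zero, Finset.eq_empty_iff_forall_notMem]
  intro e he
  obtain ⟨h1, h2⟩ := mem_Miss.1 he
  obtain ⟨j, hj, h3⟩ := h e h1
  exact h2 j hj h3

/-- Kill the words with `b` at `j` and treat the words with `a` at `j`. -/
theorem kill {J I : Finset ℕ} {C D E : Finset (ℕ → ℕ)} {j a b : ℕ} (hj : j ∉ J) (ha : a ∈ I)
    (hb : b ∈ I) (hC : Ok J (I.erase a) C)
    (hE : ∀ e, e ∈ E ↔ e ∈ put j a C ∨ e ∈ put j b D) (x : ℕ → ℕ) (hx : x b ≠ j) :
    ∃ P : ℕ → Option ℕ, (∀ j' ∈ insert j J, ∀ s, P j' = some s → s ∈ I ∧ x s ≠ j') ∧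
      (Miss (insert j J) P E).card ≤ 1 := by
  obtain ⟨P, h1, h2⟩ := hC.gd x
  refine ⟨update P j (some b), ?_, ?_⟩
  · intro j' hj' s hs
    by_cases h : j' = j
    · rw [h, update_self, Option.some.injEq] at hs
      rw [← hs, h]
      exact ⟨hb, hx⟩
    · rw [update_of_ne h] at hs
      obtain ⟨h3, h4⟩ := h1 j' (Finset.mem_of_mem_insert_of_ne hj' h) s hs
      exact ⟨Finset.mem_of_mem_erase h3, h4⟩
  · have h3 : (Miss (insert j J) (update P j (some b)) (put j b D)).card = 0 := by
      refine Miss_empty fun e he => ⟨j, Finset.mem_insert_self _ _, ?_⟩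
      obtain ⟨e', _, rfl⟩ := mem_put.1 he
      rw [update_self, update_self]
    have h4 : (Miss (insert j J) (update P j (some b)) (put j a C)).card ≤ 1 := by
      refine (card_Miss_put hj fun j' hj' => ?_).trans h2
      have hne : j' ≠ j := fun h => hj (h ▸ hj')
      rw [update_of_ne hne]
    have h5 := card_Miss_union (J := insert j J) (P := update P j (some b)) hE
    omega

/-- Two symbols at the coordinate `j`. -/
theorem Ok.branch {J I : Finset ℕ} {C D E : Finset (ℕ → ℕ)} {j a b : ℕ} (hj : j ∉ J)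
    (ha : a ∈ I) (hb : b ∈ I) (hab : a ≠ b) (hC : Ok J (I.erase a) C) (hD : Ok J (I.erase b) D)
    (A : Finset ℕ) (h1 : ∀ e ∈ C, ∀ j' ∈ J, e j' = b → j' ∉ A)
    (h2 : ∀ e ∈ D, ∀ j' ∈ J, e j' = a → j' ∈ A)
    (hE : ∀ e, e ∈ E ↔ e ∈ put j a C ∨ e ∈ put j b D) : Ok (insert j J) I E := by
  classical
  refine ⟨?_, ?_, ?_, fun x => ?_⟩
  · intro e he
    rcases (hE e).1 he with h | h
    · exact put_mem ha hC h
    · exact put_mem hb hD h
  · intro e he
    rcases (hE e).1 he with h | h
    · exact put_sur hj hC h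
    · exact put_sur hj hD h
  · intro e he
    rcases (hE e).1 he with h | h
    · exact put_out hC h
    · exact put_out hD h
  · by_cases hxb : x b = j
    · by_cases hxa : x a = j
      · refine ⟨fun j' => if j' ∈ J then (if j' ∈ A then some a else some b) else none, ?_, ?_⟩
        · intro j' hj' s hs
          beta_reduce at hs
          by_cases hJ : j' ∈ J
          · have hne : j ≠ j' := fun h => hj (h ▸ hJ)
            rw [if_pos hJ] at hs
            split_ifs at hs with hA
            · rw [Option.some.injEq] at hs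
              rw [← hs, hxa]
              exact ⟨ha, hne⟩
            · rw [Option.some.injEq] at hs
              rw [← hs, hxb]
              exact ⟨hb, hne⟩
          · rw [if_neg hJ] at hs
            exact absurd hs (by simp)
        · rw [Miss_empty]
          · exact zero_le_one
          · intro e he
            rcases (hE e).1 he with h | h
            · obtain ⟨e', he', rfl⟩ := mem_put.1 h
              obtain ⟨j', hj', h3⟩ := hC.sur e' he' b (Finset.mem_erase.2 ⟨hab.symm, hb⟩)
              have hne : j' ≠ j := fun h => hj (h ▸ hj')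
              refine ⟨j', Finset.mem_insert_of_mem hj', ?_⟩
              beta_reduce
              rw [if_pos hj', if_neg (h1 e' he' j' hj' h3), update_of_ne hne, h3]
            · obtain ⟨e', he', rfl⟩ := mem_put.1 h
              obtain ⟨j', hj', h3⟩ := hD.sur e' he' a (Finset.mem_erase.2 ⟨hab, ha⟩)
              have hne : j' ≠ j := fun h => hj (h ▸ hj')
              refine ⟨j', Finset.mem_insert_of_mem hj', ?_⟩
              beta_reduce
              rw [if_pos hj', if_pos (h2 e' he' j' hj' h3), update_of_ne hne, h3]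
      · exact kill hj hb ha hD (fun e => by rw [hE e, or_comm]) x hxa
    · exact kill hj ha hb hC hE x hxb

/-- There are `v` words on any `m` coordinates in any `m` symbols, one of which has its position in
any given set of `p` coordinates. -/
def Ex (m p v : ℕ) : Prop :=
  ∀ J I A : Finset ℕ, J.card = m → I.card = m → A ⊆ J → A.card = p → ∀ c ∈ I,
    ∃ C : Finset (ℕ → ℕ), Ok J I C ∧ (∀ e ∈ C, ∀ j ∈ J, e j = c → j ∈ A) ∧ v ≤ C.card

theorem Ex.one : Ex 1 1 1 := by
  intro J I A hJ hI hA hAc c hc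
  obtain ⟨j, rfl⟩ := Finset.card_eq_one.1 hJ
  obtain ⟨a, rfl⟩ := Finset.card_eq_one.1 hI
  have : A = {j} := Finset.eq_of_subset_of_card_le hA (by rw [hAc, Finset.card_singleton])
  refine ⟨_, Ok.base j a, ?_, ?_⟩
  · intro e _ j' hj' _
    rw [this]
    exact hj'
  · rw [Finset.card_singleton]

theorem Ex.mono {m p v v' : ℕ} (h : Ex m p v) (hv : v' ≤ v) : Ex m p v' := by
  intro J I A hJ hI hA hAc c hc
  obtain ⟨C, h1, h2, h3⟩ := h J I A hJ hI hA hAc c hc
  exact ⟨C, h1, h2, hv.trans h3⟩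

theorem Ex.mono_p {m p p' v : ℕ} (h : Ex m p v) (hp : p ≤ p') : Ex m p' v := by
  intro J I A hJ hI hA hAc c hc
  obtain ⟨B, hB, hBc⟩ := Finset.exists_subset_card_eq (s := A) (n := p) (by omega)
  obtain ⟨C, h1, h2, h3⟩ := h J I B hJ hI (hB.trans hA) hBc c hc
  exact ⟨C, h1, fun e he j hj hjc => hB (h2 e he j hj hjc), h3⟩

theorem Ex.forced {m v : ℕ} (h : Ex (m + 1) (m + 1) v) : Ex (m + 2) 1 v := by
  classical
  intro J I A hJ hI hA hAc c hc
  obtain ⟨j, hj⟩ := Finset.card_eq_one.1 hAc
  have hjJ : j ∈ J := hA (by rw [hj]; exact Finset.mem_singleton_self j)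
  have hJ' : (J.erase j).card = m + 1 := by rw [Finset.card_erase_of_mem hjJ, hJ]; rfl
  have hI' : (I.erase c).card = m + 1 := by rw [Finset.card_erase_of_mem hc, hI]; rfl
  obtain ⟨c', hc'⟩ := Finset.card_pos.1 (by rw [hI']; omega : 0 < (I.erase c).card)
  obtain ⟨C, h1, _, h3⟩ := h (J.erase j) (I.erase c) (J.erase j) hJ' hI' (Finset.Subset.refl _)
    hJ' c' hc'
  refine ⟨put j c C, ?_, ?_, ?_⟩
  · have := Ok.forced (Finset.notMem_erase j J) hc h1
    rwa [Finset.insert_erase hjJ] at this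
  · intro e he j' hj' hjc
    obtain ⟨e', he', rfl⟩ := mem_put.1 he
    rw [hj, Finset.mem_singleton]
    by_contra hne
    rw [update_of_ne hne] at hjc
    have := h1.mem e' he' j' (Finset.mem_erase.2 ⟨hne, hj'⟩)
    rw [hjc] at this
    exact Finset.notMem_erase c I this
  · rw [card_put fun e he => h1.out e he j (Finset.notMem_erase j J)]
    exact h3

theorem Ex.branch {m q r v v' : ℕ} (h : Ex (m + 1) q v) (h' : Ex (m + 1) r v')
    (hqr : q + r = m + 1) (hr : 0 < m) : Ex (m + 2) (q + 1) (v + v') := by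
  classical
  intro J I A hJ hI hA hAc c hc
  obtain ⟨j, hj⟩ := Finset.card_pos.1 (by rw [hAc]; omega : 0 < A.card)
  have hjJ : j ∈ J := hA hj
  have hJ' : (J.erase j).card = m + 1 := by rw [Finset.card_erase_of_mem hjJ, hJ]; rfl
  have hI' : (I.erase c).card = m + 1 := by rw [Finset.card_erase_of_mem hc, hI]; rfl
  have hA' : (A.erase j).card = q := by rw [Finset.card_erase_of_mem hj, hAc]; rfl
  have hAJ : A.erase j ⊆ J.erase j := Finset.erase_subset_erase j hA
  have hB : (J.erase j \ A.erase j).card = r := by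
    rw [Finset.card_sdiff_of_subset hAJ, hJ', hA']
    omega
  obtain ⟨s, hs⟩ := Finset.card_pos.1 (by rw [hI']; omega : 0 < (I.erase c).card)
  have hsI : s ∈ I := Finset.mem_of_mem_erase hs
  have hsc : s ≠ c := Finset.ne_of_mem_erase hs
  have hIs : (I.erase s).card = m + 1 := by rw [Finset.card_erase_of_mem hsI, hI]; rfl
  -- `c` at `j`, `s` outside `A`
  obtain ⟨C, c1, c2, c3⟩ := h' (J.erase j) (I.erase c) (J.erase j \ A.erase j) hJ' hI'
    Finset.sdiff_subset hB s hs
  -- `s` at `j`, `c` in `A`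
  obtain ⟨D, d1, d2, d3⟩ := h (J.erase j) (I.erase s) (A.erase j) hJ' hIs hAJ hA' c
    (Finset.mem_erase.2 ⟨hsc.symm, hc⟩)
  have hC0 : ∀ e ∈ C, e j = 0 := fun e he => c1.out e he j (Finset.notMem_erase j J)
  have hD0 : ∀ e ∈ D, e j = 0 := fun e he => d1.out e he j (Finset.notMem_erase j J)
  have hdis : Disjoint (put j c C) (put j s D) := by
    rw [Finset.disjoint_left]
    intro e he he'
    obtain ⟨e1, _, rfl⟩ := mem_put.1 he
    obtain ⟨e2, _, h2⟩ := mem_put.1 he'
    have := congrFun h2 j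
    rw [update_self, update_self] at this
    exact hsc this
  refine ⟨put j c C ∪ put j s D, ?_, ?_, ?_⟩
  · have := Ok.branch (Finset.notMem_erase j J) hc hsI hsc.symm c1 d1 (A.erase j)
      (fun e he j' hj' hes => (Finset.mem_sdiff.1 (c2 e he j' hj' hes)).2)
      (fun e he j' hj' hec => d2 e he j' hj' hec)
      (E := put j c C ∪ put j s D) (fun e => Finset.mem_union)
    rwa [Finset.insert_erase hjJ] at this
  · intro e he j' hj' hjc
    by_cases hjj : j' = j
    · rw [hjj]
      exact hj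
    · rcases Finset.mem_union.1 he with he | he
      · obtain ⟨e', he', rfl⟩ := mem_put.1 he
        rw [update_of_ne hjj] at hjc
        have := c1.mem e' he' j' (Finset.mem_erase.2 ⟨hjj, hj'⟩)
        rw [hjc] at this
        exact absurd this (Finset.notMem_erase c I)
      · obtain ⟨e', he', rfl⟩ := mem_put.1 he
        rw [update_of_ne hjj] at hjc
        exact Finset.mem_of_mem_erase (d2 e' he' j' (Finset.mem_erase.2 ⟨hjj, hj'⟩) hjc)
  · rw [Finset.card_union_of_disjoint hdis, card_put hC0, card_put hD0]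
    omega

end Pool.Agent.E8helper63.KCT
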